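import Pool.Agent.Y262.EL.Stm

/-!
# The gradient in the covering
-/

set_option autoImplicit false

open Set Filter Topology MeasureTheory
open scoped ContDiff ComplexConjugate Real

noncomputable section

namespace Pool.Agent.Y338.EL

open Pool.Agent.Y262.EG Pool.Agent.Y262.EX Pool.Agent.Y262.EL Pool.Agent.Y262.QE

/-- the inner product of two covectors -/
def nm (P Q : ℂ →L[ℝ] ℝ) : ℝ := P 1 * Q 1 + P Complex.I * Q Complex.I

lemma cov_eq (P : ℂ →L[ℝ] ℝ) (v : ℂ) : P v = v.re * P 1 + v.im * P Complex.I := by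
  have h : v = v.re • (1 : ℂ) + v.im • Complex.I := by
    apply Complex.ext <;> simp
  conv_lhs => rw [h]
  rw [map_add, map_smul, map_smul, smul_eq_mul, smul_eq_mul]

lemma nm_mul {P Q p q : ℂ →L[ℝ] ℝ} {m : ℂ} (hP : ∀ v, P v = p (m * v)) (hQ : ∀ v, Q v = q (m * v)) :
    nm P Q = ‖m‖ ^ 2 * nm p q := by
  have h1 : ‖m‖ ^ 2 = m.re ^ 2 + m.im ^ 2 := by
    rw [← Complex.normSq_eq_norm_sq, Complex.normSq_apply]; ring
  unfold nm
  rw [hP, hP, hQ, hQ, cov_eq p (m * 1), cov_eq p (m * Complex.I), cov_eq q (m * 1),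
    cov_eq q (m * Complex.I), h1]
  simp
  ring

lemma conf {f1 f : ℂ → ℝ} {h : ℂ → ℂ} {h' z : ℂ} (hd : HasDerivAt h h' z)
    (hf : DifferentiableAt ℝ f (h z)) (he : f1 =ᶠ[𝓝 z] fun ζ => f (h ζ)) (v : ℂ) :
    fderiv ℝ f1 z v = fderiv ℝ f (h z) (h' * v) := by
  rw [he.fderiv_eq]
  have h1 : HasFDerivAt h (h' • (1 : ℂ →L[ℝ] ℂ)) z := hd.complexToReal_fderiv
  have h2 : HasFDerivAt (fun ζ => f (h ζ)) ((fderiv ℝ f (h z)).comp (h' • (1 : ℂ →L[ℝ] ℂ))) z :=
    HasFDerivAt.comp (g := f) (f := h) z hf.hasFDerivAt h1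
  rw [h2.fderiv]
  simp

/-- the trace form in an orthonormal basis -/
lemma trace_form {a b c d l : ℝ} (hl : l ≠ 0) (h1 : a ^ 2 + b ^ 2 = l) (h2 : c ^ 2 + d ^ 2 = l)
    (h3 : a * c + b * d = 0) (x y x' y' : ℝ) :
    (a * x + b * y) * (a * x' + b * y') + (c * x + d * y) * (c * x' + d * y') =
      l * (x * x' + y * y') := by
  have k1 : c * l = -(b * (a * d - b * c)) := by
    rw [← h1]; linear_combination a * h3
  have k2 : d * l = a * (a * d - b * c) := by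
    rw [← h1]; linear_combination b * h3
  have k3 : (a * d - b * c) ^ 2 = l ^ 2 := by
    have : (a * d - b * c) ^ 2 + (a * c + b * d) ^ 2 = (a ^ 2 + b ^ 2) * (c ^ 2 + d ^ 2) := by ring
    rw [h3, h1, h2] at this
    linear_combination this
  have hl2 : l ^ 2 ≠ 0 := pow_ne_zero 2 hl
  have e1 : c ^ 2 = b ^ 2 := by
    apply mul_left_cancel₀ hl2
    have : l ^ 2 * c ^ 2 = (c * l) ^ 2 := by ring
    rw [this, k1, ← k3]; ring
  have e2 : d ^ 2 = a ^ 2 := by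
    apply mul_left_cancel₀ hl2
    have : l ^ 2 * d ^ 2 = (d * l) ^ 2 := by ring
    rw [this, k2, ← k3]; ring
  have e3 : c * d = -(a * b) := by
    apply mul_left_cancel₀ hl2
    have : l ^ 2 * (c * d) = (c * l) * (d * l) := by ring
    rw [this, k1, k2, ← k3]; ring
  have f1 : a ^ 2 + c ^ 2 = l := by rw [e1, h1]
  have f2 : b ^ 2 + d ^ 2 = l := by rw [e2, add_comm, h1]
  have f3 : a * b + c * d = 0 := by rw [e3]; ring
  linear_combination x * x' * f1 + y * y' * f2 + (x * y' + x' * y) * f3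

lemma inner_grd {A : ℂ →L[ℝ] ℂ} {c : ℝ} (hdet : A.det ≠ 0) (hc : 0 < c)
    (hA : ∀ v, ‖A v‖ = c * ‖v‖) (P Q : ℂ →L[ℝ] ℝ) :
    inner ℝ (grd A P) (grd A Q) = (c ^ 2)⁻¹ * nm P Q := by
  have hinv : ∀ v, A (A.inverse v) = v := by
    intro v
    have hu : IsUnit A.det := isUnit_iff_ne_zero.mpr hdet
    set e : ℂ ≃L[ℝ] ℂ := A.toContinuousLinearEquivOfDetNeZero hdet with he
    have h1 : (e : ℂ →L[ℝ] ℂ) = A := A.coe_toContinuousLinearEquivOfDetNeZero hdet
    rw [← h1, ContinuousLinearMap.inverse_equiv]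
    simp
  have hin : ∀ u v, inner ℝ (A u) (A v) = c ^ 2 * inner ℝ u v := by
    intro u v
    have p1 := norm_add_sq_real (A u) (A v)
    have p2 := norm_add_sq_real u v
    rw [← map_add, hA, hA, hA] at p1
    have : (c * ‖u + v‖) ^ 2 = c ^ 2 * ‖u + v‖ ^ 2 := by ring
    rw [this, p2] at p1
    linear_combination -p1 / 2
  have hinr : ∀ u v : ℂ, inner ℝ u v = u.re * v.re + u.im * v.im := by
    intro u v
    rw [Complex.inner]
    simp [Complex.mul_re]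
    ring
  have q1 := hin (A.inverse 1) (A.inverse 1)
  have q2 := hin (A.inverse Complex.I) (A.inverse Complex.I)
  have q3 := hin (A.inverse 1) (A.inverse Complex.I)
  rw [hinv, hinr, hinr] at q1
  rw [hinv, hinr, hinr] at q2
  rw [hinv, hinv, hinr, hinr] at q3
  simp only [Complex.one_re, Complex.one_im, Complex.I_re, Complex.I_im] at q1 q2 q3
  have hc2 : (c ^ 2) ≠ 0 := by positivity
  have r1 : (A.inverse 1).re ^ 2 + (A.inverse 1).im ^ 2 = (c ^ 2)⁻¹ := by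
    field_simp; linear_combination -q1
  have r2 : (A.inverse Complex.I).re ^ 2 + (A.inverse Complex.I).im ^ 2 = (c ^ 2)⁻¹ := by
    field_simp; linear_combination -q2
  have r3 : (A.inverse 1).re * (A.inverse Complex.I).re +
      (A.inverse 1).im * (A.inverse Complex.I).im = 0 := by
    apply mul_left_cancel₀ hc2
    linear_combination -q3
  rw [hinr]
  simp only [grd]
  rw [cov_eq P (A.inverse 1), cov_eq P (A.inverse Complex.I), cov_eq Q (A.inverse 1),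
    cov_eq Q (A.inverse Complex.I)]
  exact trace_form (inv_ne_zero hc2) r1 r2 r3 _ _ _ _

lemma gr_eq {M : Type} (D : Data M) (x : M) (hx : ∃ i, x ∈ D.U i) :
    ∃ i, x ∈ D.U i ∧ ∀ F, D.gr F x = D.gc i F x := by
  classical
  obtain ⟨i, hi, hmin⟩ := WellFounded.has_min (r := ((· < ·) : Fin D.N → Fin D.N → Prop))
    wellFounded_lt {i | x ∈ D.U i} hx
  refine ⟨i, hi, fun F => ?_⟩
  unfold Data.gr
  rw [Finset.sum_eq_single i]
  · rw [indicator_of_mem]
    refine ⟨hi, ?_⟩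
    simp only [mem_iUnion, not_exists]
    rintro ⟨k, hk⟩ hxk
    exact hmin k hxk hk
  · intro j _ hj
    apply indicator_of_notMem
    rintro ⟨h1, h2⟩
    rcases lt_or_gt_of_ne hj with h | h
    · exact hmin j h1 h
    · exact h2 (mem_iUnion.mpr ⟨⟨i, h⟩, hi⟩)
  · intro h
    exact absurd (Finset.mem_univ i) h

theorem gradT : StC1 → StGrad := by
  intro hC1 M P _ _ _ _ _ _ Ω φ pr q D μ hUT hS hco F G hF hG z hz
  obtain ⟨i, hi, hgr⟩ := gr_eq D (pr z) (hS.cover (pr z))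
  have hf := (hC1 M P Ω φ pr q D μ hUT hS hco F).mp hF
  have hg := (hC1 M P Ω φ pr q D μ hUT hS hco G).mp hG
  have hdf : ∀ ζ ∈ Ω, DifferentiableAt ℝ (fun z => F (pr z)) ζ := fun ζ hζ =>
    (hf.contDiffAt (hUT.opn.mem_nhds hζ)).differentiableAt (by simp)
  have hdg : ∀ ζ ∈ Ω, DifferentiableAt ℝ (fun z => G (pr z)) ζ := fun ζ hζ =>
    (hg.contDiffAt (hUT.opn.mem_nhds hζ)).differentiableAt (by simp)
  set zi : ℂ := D.φ i (pr z) with hzi
  have hziT : zi ∈ D.T i := ⟨pr z, hi, rfl⟩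
  obtain ⟨b, hb, hbs⟩ := hco i
  obtain ⟨hw, hpsi, hb0, hAn⟩ := hbs zi hziT
  have hpw : pr (b zi) = pr z := by rw [← hpsi, hS.left i _ hi]
  have hbd : HasDerivAt b (deriv b zi) zi :=
    (hb.differentiableAt ((hS.openT i).mem_nhds hziT)).hasDerivAt
  have hevF : (fun ζ => F (D.ψ i ζ)) =ᶠ[𝓝 zi] fun ζ => (fun z => F (pr z)) (b ζ) := by
    filter_upwards [(hS.openT i).mem_nhds hziT] with ζ hζ
    rw [(hbs ζ hζ).2.1]
  have hevG : (fun ζ => G (D.ψ i ζ)) =ᶠ[𝓝 zi] fun ζ => (fun z => G (pr z)) (b ζ) := by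
    filter_upwards [(hS.openT i).mem_nhds hziT] with ζ hζ
    rw [(hbs ζ hζ).2.1]
  have hPF := conf hbd (hdf _ hw) hevF
  have hPG := conf hbd (hdg _ hw) hevG
  have hcpos : 0 < Real.exp (φ (b zi)) * ‖deriv b zi‖ :=
    mul_pos (Real.exp_pos _) (norm_pos_iff.mpr hb0)
  rw [hgr F, hgr G]
  unfold Data.gc Data.dc
  rw [inner_grd (hS.det i zi hziT) hcpos hAn, nm_mul hPF hPG]
  -- the germ
  obtain ⟨θ', r, γ, hr, hball, hγd, hγz, hγs, -⟩ := hUT.deck z hz (b zi) hw hpw.symm 0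
  simp only at hball hγd hγz hγs
  have hzb : z ∈ Metric.ball z r := Metric.mem_ball_self hr
  have hγh : HasDerivAt γ (deriv γ z) z :=
    (hγd.differentiableAt (Metric.isOpen_ball.mem_nhds hzb)).hasDerivAt
  have hgF : (fun ζ => F (pr ζ)) =ᶠ[𝓝 z] fun ζ => (fun z => F (pr z)) (γ ζ) := by
    filter_upwards [Metric.isOpen_ball.mem_nhds hzb] with ζ hζ
    rw [(hγs ζ hζ).2.1]
  have hgG : (fun ζ => G (pr ζ)) =ᶠ[𝓝 z] fun ζ => (fun z => G (pr z)) (γ ζ) := by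
    filter_upwards [Metric.isOpen_ball.mem_nhds hzb] with ζ hζ
    rw [(hγs ζ hζ).2.1]
  have hγΩ : γ z ∈ Ω := (hγs z hzb).1
  have hQF := conf hγh (hdf _ hγΩ) hgF
  have hQG := conf hγh (hdg _ hγΩ) hgG
  have hnm := nm_mul hQF hQG
  have hphi := (hγs z hzb).2.2.2
  have hγ0 : 0 < ‖deriv γ z‖ := norm_pos_iff.mpr (hγs z hzb).2.2.1
  rw [hγz] at hnm hphi
  have hgoal : px (fun z => F (pr z)) z * px (fun z => G (pr z)) z +
      py (fun z => F (pr z)) z * py (fun z => G (pr z)) z =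
      nm (fderiv ℝ (fun z => F (pr z)) z) (fderiv ℝ (fun z => G (pr z)) z) := rfl
  rw [hgoal, hnm, ← hphi]
  have he1 : Real.exp (-2 * (φ (b zi) + Real.log ‖deriv γ z‖)) * ‖deriv γ z‖ ^ 2 =
      Real.exp (-2 * φ (b zi)) := by
    have : Real.exp (-2 * (φ (b zi) + Real.log ‖deriv γ z‖)) =
        Real.exp (-2 * φ (b zi)) * (Real.exp (Real.log ‖deriv γ z‖) ^ 2)⁻¹ := by
      rw [← Real.exp_nat_mul, ← Real.exp_neg, ← Real.exp_add]
      congr 1
      push_cast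
      ring
    rw [this, Real.exp_log hγ0]
    field_simp
  have he2 : ((Real.exp (φ (b zi)) * ‖deriv b zi‖) ^ 2)⁻¹ * ‖deriv b zi‖ ^ 2 =
      Real.exp (-2 * φ (b zi)) := by
    have : Real.exp (-2 * φ (b zi)) = (Real.exp (φ (b zi)) ^ 2)⁻¹ := by
      rw [← Real.exp_nat_mul, ← Real.exp_neg]
      congr 1
      push_cast
      ring
    rw [this]
    have hb1 : ‖deriv b zi‖ ≠ 0 := norm_ne_zero_iff.mpr hb0
    field_simp
  rw [← mul_assoc, ← mul_assoc, he1, he2]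

end Pool.Agent.Y338.EL
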